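import Pool.Agent.Drisko49.Kernel
import Pool.Agent.Drisko49.Dominant

/-!
MP_884cd1_co (disjoint transversals in row-Latin rectangles): Q1, with its number `m - (n - 1)` of
disjoint transversals and for all `m ≥ 2 n - 1` and all `k`, for rectangles that consist of copies
of one row and of rows forming a Latin rectangle, and for rectangles in which one row is frequent.
-/

namespace Pool.Agent.Results.MP_884cd1_co.SpecialCases

open Finset

/-- `A` is an `m × n` row-Latin rectangle based on `k`: an `m × n` matrix with entries among `k`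
symbols in which no symbol occurs twice within the same row. -/
def IsRowLatin {m n k : ℕ} (A : Fin m → Fin n → Fin k) : Prop :=
  ∀ i, ∀ j j', A i j = A i j' → j = j'

/-- `C` is a transversal of the `m × n` matrix `A`: a set of `n` cells, no two in the same row, no
two in the same column, no two with the same symbol. -/
def IsTransversal {m n k : ℕ} (A : Fin m → Fin n → Fin k) (C : Finset (Fin m × Fin n)) : Prop :=
  C.card = n ∧ (∀ c ∈ C, ∀ c' ∈ C, c.1 = c'.1 → c = c') ∧
    (∀ c ∈ C, ∀ c' ∈ C, c.2 = c'.2 → c = c') ∧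
    (∀ c ∈ C, ∀ c' ∈ C, A c.1 c.2 = A c'.1 c'.2 → c = c')

/-- From functions to sets of cells. -/
theorem sets_of_functions {m n k N : ℕ} (A : Fin m → Fin n → Fin k) (t : Fin N → Fin n → Fin m)
    (h1 : ∀ s, Function.Injective (t s)) (h2 : ∀ s, Function.Injective (fun j => A (t s j) j))
    (h3 : ∀ j, Function.Injective (fun s => t s j)) :
    ∃ T : Fin N → Finset (Fin m × Fin n), (∀ s, IsTransversal A (T s)) ∧
      ∀ s s', s ≠ s' → Disjoint (T s) (T s') := by
  classical
  have hmem : ∀ s c, c ∈ (univ.image (fun j => (t s j, j)) : Finset (Fin m × Fin n)) ↔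
      t s c.2 = c.1 := by
    intro s c
    simp only [Finset.mem_image, Finset.mem_univ, true_and]
    constructor
    · rintro ⟨j, rfl⟩
      rfl
    · intro h
      exact ⟨c.2, Prod.ext h rfl⟩
  refine ⟨fun s => univ.image (fun j => (t s j, j)), ?_, ?_⟩
  · intro s
    refine ⟨?_, ?_, ?_, ?_⟩
    · rw [Finset.card_image_of_injective _ (fun j j' h => congrArg Prod.snd h), Finset.card_univ,
        Fintype.card_fin]
    · intro c hc c' hc' h
      rw [hmem] at hc hc'
      exact Prod.ext h (h1 s (by rw [hc, hc', h]))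
    · intro c hc c' hc' h
      rw [hmem] at hc hc'
      exact Prod.ext (by rw [← hc, ← hc', h]) h
    · intro c hc c' hc' h
      rw [hmem] at hc hc'
      have h4 : c.2 = c'.2 := by
        apply h2 s
        change A (t s c.2) c.2 = A (t s c'.2) c'.2
        rw [hc, hc', h]
      exact Prod.ext (by rw [← hc, ← hc', h4]) h4
  · intro s s' hss'
    rw [Finset.disjoint_left]
    intro c hc hc'
    rw [hmem] at hc hc'
    apply hss'
    apply h3 c.2
    change t s c.2 = t s' c.2
    rw [hc, hc']

/-- The first special case. -/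
theorem of_latin (m n k : ℕ) (hn : 1 ≤ n) (hm : 2 * n - 1 ≤ m) (A : Fin m → Fin n → Fin k)
    (hA : IsRowLatin A) (B : Finset (Fin m)) (hB : ∀ i ∈ B, ∀ i' ∈ B, A i = A i')
    (hD : ∀ q j j', j ≠ j' → (∃ i, A i j' = q) →
      (univ.filter (fun i => i ∉ B ∧ A i j = q)).card ≤ 1) :
    ∃ T : Fin (m - (n - 1)) → Finset (Fin m × Fin n), (∀ s, IsTransversal A (T s)) ∧
      ∀ s s', s ≠ s' → Disjoint (T s) (T s') := by
  classical
  have hm0 : 0 < m := by omega
  -- the rows outside `B` first
  have hcard : (Bᶜ).card + B.card = m := by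
    rw [card_compl, Fintype.card_fin]
    have := card_le_univ B
    rw [Fintype.card_fin] at this
    omega
  set r := (Bᶜ).card with hr
  obtain ⟨e1⟩ : Nonempty (Fin r ≃ {i // i ∈ Bᶜ}) := ⟨(Fintype.equivFinOfCardEq (by
    rw [Fintype.card_coe])).symm⟩
  obtain ⟨e2⟩ : Nonempty (Fin B.card ≃ {i // i ∈ B}) := ⟨(Fintype.equivFinOfCardEq (by
    rw [Fintype.card_coe])).symm⟩
  let φ : ℕ → Fin m := fun a => if h : a < r then (e1 ⟨a, h⟩).1 else
    if h : a - r < B.card then (e2 ⟨a - r, h⟩).1 else ⟨0, hm0⟩
  have hφ1 : ∀ a (h : a < r), φ a = (e1 ⟨a, h⟩).1 := fun a h => dif_pos h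
  have hφ2 : ∀ a (h : r ≤ a) (h' : a - r < B.card), φ a = (e2 ⟨a - r, h'⟩).1 := by
    intro a h h'
    simp only [φ, dif_neg (not_lt.2 h), dif_pos h']
  have hφB1 : ∀ a, a < r → φ a ∉ B := fun a h => by
    rw [hφ1 a h]; exact Finset.mem_compl.1 (e1 ⟨a, h⟩).2
  have hφB2 : ∀ a, r ≤ a → a < m → φ a ∈ B := fun a h h' => by
    rw [hφ2 a h (by omega)]; exact (e2 _).2
  have hφinj : ∀ a b, a < m → b < m → φ a = φ b → a = b := by
    intro a b ha hb h
    rcases lt_or_ge a r with h1 | h1 <;> rcases lt_or_ge b r with h2 | h2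
    · rw [hφ1 a h1, hφ1 b h2] at h
      exact Fin.mk.inj (e1.injective (Subtype.ext h))
    · exact absurd (h ▸ hφB2 b h2 hb) (hφB1 a h1)
    · exact absurd (h ▸ hφB2 a h1 ha) (h ▸ hφB1 b h2)
    · rw [hφ2 a h1 (by omega), hφ2 b h2 (by omega)] at h
      have := Fin.mk.inj (e2.injective (Subtype.ext h))
      omega
  obtain ⟨T, hT1, hT2, hT3, hT4⟩ := Pool.Agent.Drisko49.Kernel.exists_transversals
    (N := m - (n - 1)) (n := n) (m := m) (r := r) (D := 1) (fun a => A (φ a))
    (by omega) (by omega)
    (fun a b ha ha' hb hb' => hB _ (hφB2 a ha ha') _ (hφB2 b hb hb'))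
    (fun a _ _ j j' h => hA _ j j' h)
    (by
      intro j j' hjj' b hb
      refine le_trans ?_ (hD (A (φ b) j') j j' (Ne.symm hjj') ⟨φ b, rfl⟩)
      refine Finset.card_le_card_of_injOn φ ?_ ?_
      · intro a ha
        obtain ⟨h1, h2⟩ := Finset.mem_filter.1 (Finset.mem_coe.1 ha)
        exact Finset.mem_coe.2 (Finset.mem_filter.2 ⟨Finset.mem_univ _,
          hφB1 a (Finset.mem_range.1 h1), h2⟩)
      · intro a ha a' ha' h
        have h1 := Finset.mem_range.1 (Finset.mem_filter.1 (Finset.mem_coe.1 ha)).1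
        have h2 := Finset.mem_range.1 (Finset.mem_filter.1 (Finset.mem_coe.1 ha')).1
        exact hφinj a a' (by omega) (by omega) h)
    (by omega)
  refine sets_of_functions A (fun s j => φ (T s j)) ?_ ?_ ?_
  · intro s j j' h
    exact hT2 s (hφinj _ _ (hT1 s j) (hT1 s j') h)
  · intro s j j' h
    exact hT4 s h
  · intro j s s' h
    exact hT3 j (hφinj _ _ (hT1 s j) (hT1 s' j) h)

/-- Let `n ≥ 1`, `m ≥ 2 n - 1`, let `A` be an `m × n` row-Latin rectangle based on `k`, and let `B`
be a set of rows (possibly empty), all equal to each other. Suppose that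

(a) no symbol that occurs in two different columns of `A` occurs more than once in a column outside
the rows of `B` (more precisely: a symbol that occurs in a column `j'` occurs at most once in every
other column `j` outside `B`); for example the rows outside `B` form a Latin rectangle; or

(b) `B` has at least `(1 - 1/n) (m - (n - 1))` rows; for example all but at most `n` rows of `A` are
in `B`.

Then `A` has `m - (n - 1)` pairwise disjoint transversals, as Q1 asks. -/
theorem result (m n k : ℕ) (hn : 1 ≤ n) (hm : 2 * n - 1 ≤ m) (A : Fin m → Fin n → Fin k)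
    (hA : IsRowLatin A) (B : Finset (Fin m)) (hB : ∀ i ∈ B, ∀ i' ∈ B, A i = A i')
    (h : (∀ q j j', j ≠ j' → (∃ i, A i j' = q) →
        (univ.filter (fun i => i ∉ B ∧ A i j = q)).card ≤ 1) ∨
      (n - 1) * (m - (n - 1)) ≤ n * B.card) :
    ∃ T : Fin (m - (n - 1)) → Finset (Fin m × Fin n), (∀ s, IsTransversal A (T s)) ∧
      ∀ s s', s ≠ s' → Disjoint (T s) (T s') := by
  classical
  rcases h with h | h
  · exact of_latin m n k hn hm A hA B hB h
  · rcases Nat.lt_or_ge n 2 with hn2 | hn2
    · refine of_latin m n k hn hm A hA B hB ?_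
      intro q j j' hjj'
      exact absurd (Fin.ext (by omega)) hjj'
    · -- the frequent row
      have hBne : B.Nonempty := by
        rw [Finset.nonempty_iff_ne_empty]
        rintro rfl
        rw [Finset.card_empty, Nat.mul_zero, Nat.le_zero, Nat.mul_eq_zero] at h
        omega
      obtain ⟨i0, hi0⟩ := hBne
      have key : ∀ N, N = Fintype.card (Fin m) - (Fintype.card (Fin n) - 1) →
          ∃ T : Fin N → Fin n → Fin m, (∀ s, Function.Injective (T s)) ∧
            (∀ s, Function.Injective (fun j => A (T s j) j)) ∧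
            ∀ j, Function.Injective (fun s => T s j) := by
        rintro _ rfl
        exact Pool.Agent.Drisko49.exists_of_frequent A
          (fun i j j' h => hA i j j' h) (A i0) (fun j j' h => hA i0 j j' h) B
          (fun i hi => hB i hi i0 hi0)
          (by rw [Fintype.card_fin]; exact hn2)
          (by rw [Fintype.card_fin, Fintype.card_fin]; exact hm)
          (by rw [Fintype.card_fin, Fintype.card_fin]; exact h)
      obtain ⟨T, hT1, hT2, hT3⟩ := key (m - (n - 1)) (by rw [Fintype.card_fin, Fintype.card_fin])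
      exact sets_of_functions A T hT1 hT2 hT3

end Pool.Agent.Results.MP_884cd1_co.SpecialCases
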